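import Mathlib
import Pool.Agent.Helper38.RS.Goals2

set_option autoImplicit false

open Polynomial Module

namespace Pool.Agent.Helper30.RS


/-- if p(M)=0 then charpoly M divides p^n -/
lemma charpoly_dvd_pow {R : Type*} [CommRing R] {n : Type*} [Fintype n] [DecidableEq n]
    (M : Matrix n n R) (p : R[X]) (h : aeval M p = 0) : M.charpoly ∣ p ^ Fintype.card n := by
  -- in R[X][X]: C X - X divides C p - p.map C
  have h1 : (C X - X : R[X][X]) ∣ C p - p.map C := by
    have := sub_dvd_eval_sub (C X : R[X][X]) X (p.map ((C : R[X] →+* R[X][X]).comp C))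
    have e1 : (p.map ((C : R[X] →+* R[X][X]).comp C)).eval (C X : R[X][X]) = C p := by
      rw [eval_map, ← hom_eval₂, eval₂_C_X]
    have e2 : (p.map ((C : R[X] →+* R[X][X]).comp C)).eval (X : R[X][X]) = p.map C := by
      rw [eval_map, ← Polynomial.eval₂_map, eval₂_C_X]
    rwa [e1, e2] at this
  obtain ⟨q, hq⟩ := h1
  have h2 := congrArg (aeval (M.map (C : R →+* R[X])) : R[X][X] →ₐ[R[X]] Matrix n n R[X]) hq
  rw [map_mul, map_sub, map_sub, aeval_C, aeval_C, aeval_X] at h2
  have e3 : aeval (M.map (C : R →+* R[X])) (p.map C) = 0 := by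
    have : aeval (M.map (C : R →+* R[X])) (p.map C) = ((C : R →+* R[X]).mapMatrix (aeval M p)) := by
      rw [aeval_def, eval₂_map, aeval_def, hom_eval₂]
      congr 1
      ext a i j
      · simp [Matrix.algebraMap_matrix_apply, apply_ite]
    rw [this, h, map_zero]
  rw [e3, sub_zero] at h2
  have h3 := congrArg Matrix.det h2
  rw [Matrix.det_mul] at h3
  have e4 : (algebraMap R[X] (Matrix n n R[X])) X - M.map (C : R →+* R[X]) = M.charmatrix := by
    rw [Matrix.charmatrix]
    rfl
  rw [e4] at h3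
  have e5 : ((algebraMap R[X] (Matrix n n R[X])) p).det = p ^ Fintype.card n := by
    rw [Algebra.algebraMap_eq_smul_one, Matrix.det_smul, Matrix.det_one, mul_one]
  rw [e5] at h3
  exact ⟨_, h3⟩


section la


variable {K V : Type*} [Field K] [AddCommGroup V] [Module K V] [FiniteDimensional K V]

lemma charpoly_compl (T : Module.End K V) (W W' : Submodule K V) (h : IsCompl W W')
    (hW : ∀ x ∈ W, T x ∈ W) (hW' : ∀ x ∈ W', T x ∈ W') :
    T.charpoly = (T.restrict hW).charpoly * (T.restrict hW').charpoly := by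
  let e := Submodule.prodEquivOfIsCompl W W' h
  have hψ : (T.restrict hW).prodMap (T.restrict hW') = e.symm.conj T := by
    apply LinearMap.ext
    rintro ⟨x, y⟩
    rw [LinearEquiv.conj_apply_apply, LinearEquiv.symm_symm, LinearEquiv.eq_symm_apply]
    simp [e]
  rw [← e.symm.charpoly_conj T, ← hψ, LinearMap.charpoly_prodMap]

lemma charpoly_dvd_pow' (T : Module.End K V) (p : K[X]) (h : aeval T p = 0) :
    T.charpoly ∣ p ^ finrank K V := by
  have b := Module.finBasis K V
  have := charpoly_dvd_pow (LinearMap.toMatrix b b T) p (by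
    have := congrArg (LinearMap.toMatrixAlgEquiv b) h
    rw [map_zero] at this
    rw [← this]
    exact (aeval_algHom_apply (LinearMap.toMatrixAlgEquiv b).toAlgHom T p).symm ▸ rfl)
  rwa [LinearMap.charpoly_toMatrix, Fintype.card_fin] at this

lemma kerdim (T : Module.End K V) (P Θ P' g : K[X]) (n : ℕ) (hPT : aeval T (P * Θ) = 0)
    (hcop : IsCoprime P Θ) (hc : T.charpoly = (P * P') ^ n * g) (hg : IsCoprime P g)
    (hP' : IsCoprime P P') (hP0 : P ≠ 0) :
    finrank K (LinearMap.ker (aeval T P)) ≤ n * P.natDegree := by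
  have hinv : ∀ Q : K[X], ∀ x ∈ LinearMap.ker (aeval T Q), T x ∈ LinearMap.ker (aeval T Q) := by
    intro Q x hx
    rw [LinearMap.mem_ker] at hx ⊢
    have : aeval T Q (T x) = T (aeval T Q x) := by
      have h1 : aeval T Q * aeval T (X : K[X]) = aeval T (X : K[X]) * aeval T Q := by
        rw [← map_mul, ← map_mul, mul_comm]
      rw [aeval_X] at h1
      exact congrArg (fun f : Module.End K V => f x) h1
    rw [this, hx, map_zero]
  have hcompl : IsCompl (LinearMap.ker (aeval T P)) (LinearMap.ker (aeval T Θ)) := by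
    constructor
    · exact Polynomial.disjoint_ker_aeval_of_isCoprime T hcop
    · rw [codisjoint_iff, Polynomial.sup_ker_aeval_eq_ker_aeval_mul_of_coprime T hcop, hPT]
      exact LinearMap.ker_zero
  have h1 := charpoly_compl T _ _ hcompl (hinv P) (hinv Θ)
  have h2 : (T.restrict (hinv P)).charpoly ∣ P ^ finrank K (LinearMap.ker (aeval T P)) := by
    refine charpoly_dvd_pow' _ _ ?_
    apply LinearMap.ext
    rintro ⟨x, hx⟩
    have : ∀ Q : K[X], ((aeval (T.restrict (hinv P)) Q ⟨x, hx⟩ : LinearMap.ker (aeval T P)) : V) = aeval T Q x := by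
      intro Q
      induction Q using Polynomial.induction_on' with
      | add a b ha hb => simp [ha, hb]
      | monomial k a =>
        rw [aeval_monomial, aeval_monomial]
        simp only [Module.End.mul_apply, Module.algebraMap_end_apply, SetLike.val_smul]
        congr 1
        induction k with
        | zero => simp
        | succ k ih =>
          rw [pow_succ', pow_succ', Module.End.mul_apply, Module.End.mul_apply, ← ih]
          rfl
    apply Subtype.ext
    rw [this]
    exact hx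
  set χ := (T.restrict (hinv P)).charpoly with hχ
  have h3 : χ ∣ (P * P') ^ n * g := by rw [← hc, h1]; exact dvd_mul_right _ _
  have h4 : IsCoprime χ g := IsCoprime.of_isCoprime_of_dvd_left (hg.pow_left) h2
  have h5 : χ ∣ (P * P') ^ n := h4.dvd_of_dvd_mul_right h3
  rw [mul_pow] at h5
  have h6 : IsCoprime χ (P' ^ n) := IsCoprime.of_isCoprime_of_dvd_left (hP'.pow) h2
  have h7 : χ ∣ P ^ n := h6.dvd_of_dvd_mul_right h5
  have h8 := Polynomial.natDegree_le_of_dvd h7 (pow_ne_zero _ hP0)
  rw [Polynomial.natDegree_pow, hχ, LinearMap.charpoly_natDegree] at h8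
  exact h8


end la

section arith

lemma X_pow_eq (m : ℕ) (hm : 0 < m) :
    (X ^ m - 1 : ℤ[X]) = cyclotomic m ℤ * ∏ e ∈ m.properDivisors, cyclotomic e ℤ := by
  rw [← prod_cyclotomic_eq_X_pow_sub_one hm, ← Nat.cons_self_properDivisors hm.ne',
    Finset.prod_cons]

lemma ar (m : ℕ) (hodd : Odd m) (P : (ZMod 2)[X])
    (cop : ∀ e : ℕ, 0 < e → e < m → e ∣ m → IsCoprime P (X ^ e - 1))
    (dvdP : P ∣ X ^ m - 1) {r : ℕ} (M : Matrix (Fin r) (Fin r) ℤ) (hM : M ^ m = 1) :
    ∃ (n : ℕ) (g : ℤ[X]) (P' : (ZMod 2)[X]), M.charpoly = cyclotomic m ℤ ^ n * g ∧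
      cyclotomic m (ZMod 2) = P * P' ∧ IsCoprime P P' ∧
      IsCoprime P (g.map (Int.castRingHom (ZMod 2))) := by
  have hm : 0 < m := hodd.pos
  have hc0 : M.charpoly ≠ 0 := (Matrix.charpoly_monic M).ne_zero
  obtain ⟨n, g, hng, hc⟩ := WfDvdMonoid.max_power_factor hc0 (cyclotomic.irreducible hm)
  have hdvd : M.charpoly ∣ (X ^ m - 1 : ℤ[X]) ^ Fintype.card (Fin r) := by
    apply charpoly_dvd_pow
    simp [hM]
  set Q : ℤ[X] := ∏ e ∈ m.properDivisors, cyclotomic e ℤ with hQ
  rw [X_pow_eq m hm, ← hQ, mul_pow] at hdvd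
  have hrel : IsRelPrime g (cyclotomic m ℤ) :=
    ((cyclotomic.irreducible hm).isRelPrime_iff_not_dvd.2 hng).symm
  have hg : g ∣ Q ^ Fintype.card (Fin r) := by
    refine (hrel.pow_right (n := Fintype.card (Fin r))).dvd_of_dvd_mul_left ?_
    refine (Dvd.intro_left _ hc.symm).trans hdvd
  -- modulo 2
  have hQ2 : IsCoprime P (Q.map (Int.castRingHom (ZMod 2))) := by
    rw [hQ, Polynomial.map_prod]
    refine IsCoprime.prod_right fun e he => ?_
    rw [Nat.mem_properDivisors] at he
    have he0 : 0 < e := Nat.pos_of_dvd_of_pos he.1 hm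
    refine IsCoprime.of_isCoprime_of_dvd_right (cop e he0 he.2 he.1) ?_
    rw [map_cyclotomic]
    exact cyclotomic.dvd_X_pow_sub_one e (ZMod 2)
  have hg2 : IsCoprime P (g.map (Int.castRingHom (ZMod 2))) := by
    refine IsCoprime.of_isCoprime_of_dvd_right (hQ2.pow_right (n := Fintype.card (Fin r))) ?_
    rw [← Polynomial.map_pow]
    exact Polynomial.map_dvd _ hg
  have hX2 : (X ^ m - 1 : (ZMod 2)[X]) =
      cyclotomic m (ZMod 2) * Q.map (Int.castRingHom (ZMod 2)) := by
    have := congrArg (Polynomial.map (Int.castRingHom (ZMod 2))) (X_pow_eq m hm)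
    rw [← hQ, Polynomial.map_mul, map_cyclotomic] at this
    rw [← this]
    simp
  have hP1 : P ∣ cyclotomic m (ZMod 2) := by
    rw [hX2] at dvdP
    exact hQ2.dvd_of_dvd_mul_right dvdP
  obtain ⟨P', hP'⟩ := hP1
  refine ⟨n, g, P', hc, hP', ?_, hg2⟩
  have hsep : (X ^ m - 1 : (ZMod 2)[X]).Separable := by
    rw [X_pow_sub_one_separable_iff]
    intro h
    rw [ZMod.natCast_eq_zero_iff] at h
    exact (Nat.not_even_iff_odd.2 hodd) (even_iff_two_dvd.2 h)
  rw [hX2, hP', mul_assoc] at hsep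
  exact hsep.isCoprime.of_mul_right_left

end arith

section tors

open TensorProduct Pool.Agent.Helper51.SigLeo

variable {A : Type} [AddCommGroup A]

/-- the linear map of `δ` -/
noncomputable def dl (δ : A →+ A) : A →ₗ[ℤ] A := δ.toIntLinearMap

lemma tors_le (δ : A →+ A) :
    Submodule.torsion ℤ A ≤ (Submodule.torsion ℤ A).comap (dl δ) := by
  intro x hx
  rw [Submodule.mem_comap, Submodule.mem_torsion_iff]
  rw [Submodule.mem_torsion_iff] at hx
  obtain ⟨a, ha⟩ := hx
  refine ⟨a, ?_⟩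
  have : a • dl δ x = dl δ (a • x) := by
    rw [Submonoid.smul_def, Submonoid.smul_def, map_smul]
  rw [this, ha, map_zero]

/-- the induced map on the quotient by the torsion -/
noncomputable def dq (δ : A →+ A) : (A ⧸ Submodule.torsion ℤ A) →ₗ[ℤ] (A ⧸ Submodule.torsion ℤ A) :=
  (Submodule.torsion ℤ A).mapQ (Submodule.torsion ℤ A) (dl δ) (tors_le δ)

lemma dq_mk (δ : A →+ A) (x : A) :
    dq δ ((Submodule.torsion ℤ A).mkQ x) = (Submodule.torsion ℤ A).mkQ (δ x) := rfl

lemma baseChange_bij : Function.Bijective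
    ((Submodule.torsion ℤ A).mkQ.baseChange ℂ : ℂ ⊗[ℤ] A → ℂ ⊗[ℤ] (A ⧸ Submodule.torsion ℤ A)) := by
  have h0 : ∀ w : ℂ ⊗[ℤ] (Submodule.torsion ℤ A), w = 0 := by
    intro w
    induction w using TensorProduct.induction_on with
    | zero => rfl
    | tmul c t =>
      obtain ⟨a, ha⟩ := (Submodule.mem_torsion_iff _).1 t.2
      have ha0 : ((a : ℤ) : ℂ) ≠ 0 := by
        exact_mod_cast nonZeroDivisors.ne_zero a.2
      have e1 : c = (a : ℤ) • (c / (a : ℤ)) := by
        rw [zsmul_eq_mul]; field_simp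
      have e2 : (a : ℤ) • t = 0 := Subtype.ext ha
      rw [e1, TensorProduct.smul_tmul, e2, TensorProduct.tmul_zero]
    | add x y hx hy => rw [hx, hy, add_zero]
  constructor
  · rw [injective_iff_map_eq_zero]
    intro z hz
    have hex := lTensor_exact ℂ (f := (Submodule.torsion ℤ A).subtype)
      (g := (Submodule.torsion ℤ A).mkQ) (LinearMap.exact_subtype_mkQ _)
      (Submodule.mkQ_surjective _)
    have h1 : z ∈ LinearMap.range ((Submodule.torsion ℤ A).subtype.lTensor ℂ) := by
      rw [← LinearMap.exact_iff.1 hex, LinearMap.mem_ker]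
      exact hz
    obtain ⟨w, rfl⟩ := h1
    rw [h0 w, map_zero]
  · exact LinearMap.lTensor_surjective _ (Submodule.mkQ_surjective _)

lemma extEnd_pow (δ : A →+ A) (j : ℕ) (c : ℂ) (x : A) :
    ((extEnd δ : (ℂ ⊗[ℤ] A) →ₗ[ℂ] (ℂ ⊗[ℤ] A)) ^ j) (c ⊗ₜ x) = c ⊗ₜ (δ^[j] x) := by
  induction j with
  | zero => rfl
  | succ j ih =>
    rw [pow_succ', Module.End.mul_apply, ih, Function.iterate_succ_apply']
    rfl

lemma dq_pow (δ : A →+ A) (j : ℕ) (x : A) :
    ((dq δ) ^ j) ((Submodule.torsion ℤ A).mkQ x) = (Submodule.torsion ℤ A).mkQ (δ^[j] x) := by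
  induction j with
  | zero => rfl
  | succ j ih =>
    rw [pow_succ', Module.End.mul_apply, ih, Function.iterate_succ_apply', dq_mk]

lemma mu_ge [Module.Finite ℤ A] (m : ℕ) (hm : 0 < m) (δ : A →+ A) (hδ : ∀ x, δ^[m] x = x) (ζ' : ℂ)
    (hζ : IsPrimitiveRoot ζ' m) {r : ℕ} (b : Basis (Fin r) ℤ (A ⧸ Submodule.torsion ℤ A)) (n : ℕ)
    (g : ℤ[X]) (hc : (LinearMap.toMatrix b b (dq δ)).charpoly = cyclotomic m ℤ ^ n * g) :
    n ≤ finrank ℂ (LinearMap.ker
      ((extEnd δ : (ℂ ⊗[ℤ] A) →ₗ[ℂ] (ℂ ⊗[ℤ] A)) - ζ' • LinearMap.id)) := by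
  set f : Module.End ℂ (ℂ ⊗[ℤ] A) := extEnd δ with hf
  let E : (ℂ ⊗[ℤ] A) ≃ₗ[ℂ] (ℂ ⊗[ℤ] (A ⧸ Submodule.torsion ℤ A)) :=
    LinearEquiv.ofBijective ((Submodule.torsion ℤ A).mkQ.baseChange ℂ) baseChange_bij
  have hconj : E.conj f = (dq δ).baseChange ℂ := by
    apply LinearMap.ext
    intro z
    obtain ⟨w, rfl⟩ := E.surjective z
    rw [LinearEquiv.conj_apply_apply, LinearEquiv.symm_apply_apply]
    induction w using TensorProduct.induction_on with
    | zero => simp
    | tmul c t => rfl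
    | add x y hx hy => simp only [map_add, hx, hy]
  have hpoly : f.charpoly = ((cyclotomic m ℤ) ^ n * g).map (algebraMap ℤ ℂ) := by
    rw [← E.charpoly_conj f, hconj, LinearMap.charpoly_baseChange, ← hc,
      LinearMap.charpoly_toMatrix]
  have hroot : n ≤ f.charpoly.rootMultiplicity ζ' := by
    rw [le_rootMultiplicity_iff (LinearMap.charpoly_monic f).ne_zero, hpoly, Polynomial.map_mul,
      Polynomial.map_pow]
    refine Dvd.dvd.mul_right (pow_dvd_pow_of_dvd ?_ n) _
    rw [dvd_iff_isRoot, map_cyclotomic]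
    have : NeZero (m : ℂ) := ⟨by exact_mod_cast hm.ne'⟩
    exact isRoot_cyclotomic_iff.2 hζ
  have hss : f.IsSemisimple := by
    refine Module.End.isSemisimple_of_squarefree_aeval_eq_zero (p := X ^ m - 1) ?_ ?_
    · refine Polynomial.Separable.squarefree ?_
      rw [X_pow_sub_one_separable_iff]
      exact_mod_cast hm.ne'
    · rw [map_sub, map_pow, aeval_X, map_one, sub_eq_zero]
      apply LinearMap.ext
      intro z
      induction z using TensorProduct.induction_on with
      | zero => simp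
      | tmul c t => rw [hf, extEnd_pow, hδ]; rfl
      | add x y hx hy => simp only [map_add, hx, hy]
  have h1 := LinearMap.finrank_maxGenEigenspace_eq f ζ'
  rw [hss.isFinitelySemisimple.maxGenEigenspace_eq_eigenspace] at h1
  rw [← h1] at hroot
  have he : f.eigenspace ζ' = LinearMap.ker (f - ζ' • LinearMap.id) := by
    rw [Module.End.eigenspace_def]
    rfl
  rw [he] at hroot
  exact hroot

end tors

section final

open TensorProduct Pool.Agent.Helper51.SigLeo

variable {A : Type} [AddCommGroup A]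

lemma tors_even (δ : A →+ A) (htors : ∀ (x : A) (n : ℕ), 2 ^ n • x = 0 → δ x = x)
    (P : (ZMod 2)[X]) (hcard : Odd P.support.card) (z y τ : A) (hz : z = 2 • y + τ)
    (hτ : τ ∈ Submodule.torsion ℤ A) (hb : ∃ b, ∑ j ∈ P.support, δ^[j] z = 2 • b) :
    ∃ b, z = 2 • b := by
  obtain ⟨a, ha⟩ := (Submodule.mem_torsion_iff _).1 hτ
  have ha0 : (a : ℤ) ≠ 0 := nonZeroDivisors.ne_zero a.2
  have ha' : (a : ℤ).natAbs • τ = 0 := by
    rw [← natCast_zsmul, Int.natCast_natAbs]
    rcases abs_choice (a : ℤ) with h | h <;> rw [h]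
    · exact ha
    · rw [neg_smul, neg_eq_zero]; exact ha
  obtain ⟨e, k, hk, hek⟩ := Nat.exists_eq_two_pow_mul_odd (Int.natAbs_ne_zero.2 ha0)
  rw [hek] at ha'
  set τ₂ := k • τ with hτ₂
  have h2 : 2 ^ e • τ₂ = 0 := by rw [hτ₂, smul_smul]; exact ha'
  have hfix : δ τ₂ = τ₂ := htors _ _ h2
  obtain ⟨l, hl⟩ := hk
  have hz2 : z = 2 • (y - l • τ) + τ₂ := by
    rw [hz, hτ₂, hl, smul_sub, add_smul, one_smul, smul_smul]
    abel
  have hfix' : ∀ j, δ^[j] τ₂ = τ₂ := by
    intro j
    induction j with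
    | zero => rfl
    | succ j ih => rw [Function.iterate_succ_apply', ih, hfix]
  have hiter : ∀ (j : ℕ) (u v : A), δ^[j] (u + v) = δ^[j] u + δ^[j] v := by
    intro j u v
    induction j with
    | zero => rfl
    | succ j ih =>
      rw [Function.iterate_succ_apply', ih, map_add, Function.iterate_succ_apply',
        Function.iterate_succ_apply']
  have hiter2 : ∀ (j : ℕ) (u : A), δ^[j] (2 • u) = 2 • δ^[j] u := by
    intro j u
    rw [two_smul, hiter, two_smul]
  obtain ⟨b, hb⟩ := hb
  have hsum : ∑ j ∈ P.support, δ^[j] z =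
      2 • (∑ j ∈ P.support, δ^[j] (y - l • τ)) + P.support.card • τ₂ := by
    rw [Finset.smul_sum, ← Finset.sum_const, ← Finset.sum_add_distrib]
    refine Finset.sum_congr rfl fun j _ => ?_
    rw [hz2, hiter, hiter2, hfix']
  obtain ⟨c, hc⟩ := hcard
  rw [hb, hc, add_smul, one_smul, mul_smul] at hsum
  refine ⟨y - l • τ + (b - (∑ j ∈ P.support, δ^[j] (y - l • τ)) - c • τ₂), ?_⟩
  have : τ₂ = 2 • (b - (∑ j ∈ P.support, δ^[j] (y - l • τ)) - c • τ₂) := by
    rw [smul_sub, smul_sub, hsum]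
    abel
  rw [smul_add, ← this]
  exact hz2

lemma card_odd (P : (ZMod 2)[X]) (h : IsCoprime P (X ^ 1 - 1)) : Odd P.support.card := by
  rw [← Nat.not_even_iff_odd]
  intro he
  have h1 : P.eval 1 = 0 := by
    rw [eval_eq_sum, Polynomial.sum]
    have : ∀ i ∈ P.support, P.coeff i * 1 ^ i = (1 : ZMod 2) := by
      intro i hi
      rw [one_pow, mul_one]
      have h0 : P.coeff i ≠ 0 := mem_support_iff.1 hi
      revert h0
      generalize P.coeff i = c
      revert c
      decide
    rw [Finset.sum_congr rfl this, Finset.sum_const, nsmul_eq_mul, mul_one]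
    rwa [ZMod.natCast_eq_zero_iff_even]
  obtain ⟨u, v, huv⟩ := h
  have := congrArg (eval (1 : ZMod 2)) huv
  simp [h1] at this

end final

open TensorProduct Pool.Agent.Helper51.SigLeo in
theorem s_lem : Pool.Agent.Helper38.RS.S_LEM := by
  intro k _ _ m ζ Φ P hP A _ _ δ hδ htors ζ' hζ' F hF hF2
  have hm : 0 < m := hP.odd.pos
  let b := Module.finBasis ℤ (A ⧸ Submodule.torsion ℤ A)
  set r := finrank ℤ (A ⧸ Submodule.torsion ℤ A) with hr
  set M := LinearMap.toMatrix b b (dq δ) with hMdef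
  have hdq : (dq δ) ^ m = 1 := by
    apply LinearMap.ext
    intro x
    obtain ⟨y, rfl⟩ := Submodule.mkQ_surjective _ x
    rw [dq_pow, hδ]; rfl
  have hM : M ^ m = 1 := by
    have := map_pow (LinearMap.toMatrixAlgEquiv b) (dq δ) m
    rw [hdq, map_one] at this
    exact this.symm
  obtain ⟨n, g, P', hc, hP', hcop, hg⟩ := ar m hP.odd P hP.cop hP.dvdP M hM
  have hn := mu_ge m hm δ hδ ζ' hζ' b n g hc
  set T : Module.End (ZMod 2) (Fin r → ZMod 2) :=
    Matrix.toLin' (M.map (Int.castRingHom (ZMod 2))) with hTdef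
  have hTc : T.charpoly = (P * P') ^ n * g.map (Int.castRingHom (ZMod 2)) := by
    rw [hTdef, Matrix.charpoly_toLin', Matrix.charpoly_map, hc, Polynomial.map_mul,
      Polynomial.map_pow, map_cyclotomic, hP']
  obtain ⟨Θ, hΘ⟩ := hP.dvdP
  have hsep : (X ^ m - 1 : (ZMod 2)[X]).Separable := by
    rw [X_pow_sub_one_separable_iff]
    intro h
    rw [ZMod.natCast_eq_zero_iff_even] at h
    exact (Nat.not_even_iff_odd.2 hP.odd) h
  have hcopΘ : IsCoprime P Θ := by
    rw [hΘ] at hsep
    exact hsep.isCoprime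
  have hTm : aeval T (P * Θ) = 0 := by
    rw [← hΘ, map_sub, map_pow, aeval_X, map_one, sub_eq_zero, hTdef, ← Matrix.toLin'_pow]
    have : (M.map (Int.castRingHom (ZMod 2))) ^ m = 1 := by
      have := map_pow ((Int.castRingHom (ZMod 2)).mapMatrix) M m
      rw [hM, map_one] at this
      exact this.symm
    rw [this, Matrix.toLin'_one]; rfl
  have hdim := kerdim T P Θ P' _ n hTm hcopΘ hTc hg hcop hP.irr.ne_zero
  -- the map to the reduction
  let φ : A →+ (Fin r → ZMod 2) :=
    { toFun := fun x i => ((b.repr ((Submodule.torsion ℤ A).mkQ x) i : ℤ) : ZMod 2)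
      map_zero' := by
        funext i
        simp
      map_add' := fun x y => by
        funext i
        simp }
  have hφ : ∀ x i, φ x i = ((b.repr ((Submodule.torsion ℤ A).mkQ x) i : ℤ) : ZMod 2) :=
    fun x i => rfl
  have hφδ : ∀ x, φ (δ x) = T (φ x) := by
    intro x
    funext i
    rw [hφ, ← dq_mk, hTdef, Matrix.toLin'_apply, Matrix.mulVec, dotProduct]
    have h1 := congrFun (LinearMap.toMatrix_mulVec_repr b b (dq δ)
      ((Submodule.torsion ℤ A).mkQ x)) i
    rw [← h1, Matrix.mulVec, dotProduct, Int.cast_sum]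
    refine Finset.sum_congr rfl fun j _ => ?_
    rw [Int.cast_mul, hφ]; rfl
  have hφδj : ∀ (j : ℕ) x, φ (δ^[j] x) = (T ^ j) (φ x) := by
    intro j x
    induction j with
    | zero => rfl
    | succ j ih =>
      rw [Function.iterate_succ_apply', hφδ, ih, pow_succ', Module.End.mul_apply]
  have hφ2 : ∀ x : A, φ (2 • x) = 0 := by
    intro x
    funext i
    rw [two_smul, map_add, Pi.add_apply, Pi.zero_apply]
    exact CharTwo.add_self_eq_zero _
  have hker : ∀ x ∈ F, φ x ∈ LinearMap.ker (aeval T P) := by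
    intro x hx
    obtain ⟨y, hy⟩ := hF x hx
    rw [LinearMap.mem_ker, aeval_eq_sum_range' (n := P.natDegree + 1) (Nat.lt_succ_self _)]
    have h1 : φ (∑ j ∈ P.support, δ^[j] x) = 0 := by rw [hy, hφ2]
    rw [map_sum] at h1
    rw [LinearMap.sum_apply, ← h1]
    symm
    refine Finset.sum_subset_zero_on_sdiff ?_ ?_ ?_
    · intro j hj
      exact Finset.mem_range.2 (Nat.lt_succ_of_le (le_natDegree_of_mem_supp j hj))
    · intro j hj
      have : P.coeff j = 0 := notMem_support_iff.1 (Finset.mem_sdiff.1 hj).2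
      rw [this, zero_smul, LinearMap.zero_apply]
    · intro j hj
      have h0 : P.coeff j ≠ 0 := mem_support_iff.1 hj
      have h1 : P.coeff j = 1 := by
        revert h0
        generalize P.coeff j = c
        revert c
        decide
      rw [hφδj, h1, one_smul]
  have hodd := card_odd P (hP.cop 1 one_pos hP.one_lt (one_dvd m))
  have hinj : ∀ x ∈ F, ∀ y ∈ F, φ x = φ y → x = y := by
    intro x hx y hy hxy
    by_contra hne
    refine hF2 x hx y hy hne ?_
    have hz0 : φ (x - y) = 0 := by rw [map_sub, hxy, sub_self]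
    have hex : ∃ u τ, x - y = 2 • u + τ ∧ τ ∈ Submodule.torsion ℤ A := by
      have h1 : ∀ i, ∃ c : ℤ, b.repr ((Submodule.torsion ℤ A).mkQ (x - y)) i = 2 * c := by
        intro i
        have := congrFun hz0 i
        rw [hφ, Pi.zero_apply, ZMod.intCast_zmod_eq_zero_iff_dvd] at this
        obtain ⟨c, hc⟩ := this
        exact ⟨c, by exact_mod_cast hc⟩
      choose c hc using h1
      obtain ⟨u, hu⟩ := Submodule.mkQ_surjective (Submodule.torsion ℤ A) (∑ i, c i • b i)
      refine ⟨u, x - y - 2 • u, by abel, ?_⟩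
      rw [← Submodule.ker_mkQ (Submodule.torsion ℤ A), LinearMap.mem_ker, map_sub, sub_eq_zero]
      rw [map_nsmul, hu, ← b.sum_repr ((Submodule.torsion ℤ A).mkQ (x - y)), Finset.smul_sum]
      refine Finset.sum_congr rfl fun i _ => ?_
      rw [hc, mul_smul, two_smul, two_smul]
    obtain ⟨u, τ, huτ, hτ⟩ := hex
    obtain ⟨bx, hbx⟩ := hF x hx
    obtain ⟨by', hby⟩ := hF y hy
    obtain ⟨w, hw⟩ := tors_even δ htors P hodd (x - y) u τ huτ hτ ⟨bx - by', by
      have hiter : ∀ (j : ℕ) (u v : A), δ^[j] (u - v) = δ^[j] u - δ^[j] v := by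
        intro j u v
        induction j with
        | zero => rfl
        | succ j ih =>
          rw [Function.iterate_succ_apply', ih, map_sub, Function.iterate_succ_apply',
            Function.iterate_succ_apply']
      rw [Finset.sum_congr rfl fun j _ => hiter j x y, Finset.sum_sub_distrib, hbx, hby, smul_sub]⟩
    exact ⟨w, by rw [← hw]; abel⟩
  have hcard : F.card ≤ 2 ^ finrank (ZMod 2) (LinearMap.ker (aeval T P)) := by
    classical
    have hfin : Fintype (LinearMap.ker (aeval T P)) := Fintype.ofFinite _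
    have h1 := Module.card_eq_pow_finrank (K := ZMod 2) (V := LinearMap.ker (aeval T P))
    rw [ZMod.card] at h1
    rw [← h1, ← Fintype.card_coe F]
    refine Fintype.card_le_of_injective
      (fun x : F => (⟨φ x.1, hker x.1 x.2⟩ : LinearMap.ker (aeval T P))) ?_
    intro x y hxy
    apply Subtype.ext
    exact hinj x.1 x.2 y.1 y.2 (congrArg Subtype.val hxy)
  refine hcard.trans (Nat.pow_le_pow_right (by norm_num) ?_)
  refine hdim.trans ?_
  rw [mul_comm]
  exact Nat.mul_le_mul_left _ hn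

end Pool.Agent.Helper30.RS
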